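import Mathlib

namespace Pool.Agent.Lib.MP_558e64_nt.Sharp

open Finset

/-- The sum `∑_{j=0}^{n-1} C(n,j) C(n-1,j) C(n+j-1,j)^2`. -/
def aSum (n : ℕ) : ℕ :=
  ∑ j ∈ Finset.range n, Nat.choose n j * Nat.choose (n - 1) j * Nat.choose (n + j - 1) j ^ 2

/-- The ring of rational numbers with a denominator prime to `p`. -/
def Z (p : ℕ) : Subring ℚ where
  carrier := {x | ∃ m : ℤ, ∃ n : ℕ, n.Coprime p ∧ n ≠ 0 ∧ x * n = m}
  mul_mem' := by
    rintro x y ⟨m, n, h1, h2, h3⟩ ⟨m', n', h1', h2', h3'⟩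
    refine ⟨m * m', n * n', Nat.Coprime.mul_left h1 h1', mul_ne_zero h2 h2', ?_⟩
    push_cast
    rw [← h3, ← h3']
    ring
  one_mem' := ⟨1, 1, by simp, by simp, by simp⟩
  add_mem' := by
    rintro x y ⟨m, n, h1, h2, h3⟩ ⟨m', n', h1', h2', h3'⟩
    refine ⟨m * n' + m' * n, n * n', Nat.Coprime.mul_left h1 h1', mul_ne_zero h2 h2', ?_⟩
    push_cast
    rw [← h3, ← h3']
    ring
  zero_mem' := ⟨0, 1, by simp, by simp, by simp⟩
  neg_mem' := by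
    rintro x ⟨m, n, h1, h2, h3⟩
    refine ⟨-m, n, h1, h2, ?_⟩
    push_cast
    rw [← h3]
    ring

/-- `x` is divisible by `p^n` in `Z p`. -/
def D (p n : ℕ) (x : ℚ) : Prop := ∃ r ∈ Z p, x = (p : ℚ) ^ n * r

variable {p : ℕ}

lemma natCast_mem (p n : ℕ) : (n : ℚ) ∈ Z p := _root_.natCast_mem (Z p) n

lemma inv_mem_of_coprime {n : ℕ} (h : n.Coprime p) (h0 : n ≠ 0) : ((n : ℚ))⁻¹ ∈ Z p :=
  ⟨1, n, h, h0, by
    have : (n : ℚ) ≠ 0 := Nat.cast_ne_zero.mpr h0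
    rw [inv_mul_cancel₀ this]
    simp⟩

lemma inv_mem (hp : p.Prime) {j : ℕ} (h0 : 0 < j) (hj : j < p) : ((j : ℚ))⁻¹ ∈ Z p :=
  inv_mem_of_coprime (Nat.coprime_of_lt_prime h0.ne' hj hp).symm h0.ne'

namespace D

lemma add {n : ℕ} {x y : ℚ} (hx : D p n x) (hy : D p n y) : D p n (x + y) := by
  obtain ⟨r, hr, rfl⟩ := hx
  obtain ⟨s, hs, rfl⟩ := hy
  exact ⟨r + s, (Z p).add_mem hr hs, by ring⟩

lemma sub {n : ℕ} {x y : ℚ} (hx : D p n x) (hy : D p n y) : D p n (x - y) := by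
  obtain ⟨r, hr, rfl⟩ := hx
  obtain ⟨s, hs, rfl⟩ := hy
  exact ⟨r - s, (Z p).sub_mem hr hs, by ring⟩

lemma smul {n : ℕ} {x c : ℚ} (hc : c ∈ Z p) (hx : D p n x) : D p n (c * x) := by
  obtain ⟨r, hr, rfl⟩ := hx
  exact ⟨c * r, (Z p).mul_mem hc hr, by ring⟩

lemma mul {m n : ℕ} {x y : ℚ} (hx : D p m x) (hy : D p n y) : D p (m + n) (x * y) := by
  obtain ⟨r, hr, rfl⟩ := hx
  obtain ⟨s, hs, rfl⟩ := hy
  exact ⟨r * s, (Z p).mul_mem hr hs, by ring⟩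

lemma pmul {n : ℕ} {x : ℚ} (m : ℕ) (hx : D p n x) : D p (m + n) ((p : ℚ) ^ m * x) := by
  obtain ⟨r, hr, rfl⟩ := hx
  exact ⟨r, hr, by ring⟩

lemma of_mem {n : ℕ} {x : ℚ} (hx : x ∈ Z p) : D p n ((p : ℚ) ^ n * x) := ⟨x, hx, rfl⟩

lemma mem {n : ℕ} {x : ℚ} (hx : D p n x) : x ∈ Z p := by
  obtain ⟨r, hr, rfl⟩ := hx
  exact (Z p).mul_mem ((Z p).pow_mem (natCast_mem p p) n) hr

lemma mono {m n : ℕ} (h : m ≤ n) {x : ℚ} (hx : D p n x) : D p m x := by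
  obtain ⟨r, hr, rfl⟩ := hx
  obtain ⟨k, rfl⟩ := Nat.exists_eq_add_of_le h
  exact ⟨(p : ℚ) ^ k * r, (Z p).mul_mem ((Z p).pow_mem (natCast_mem p p) k) hr, by ring⟩

lemma sum {ι : Type*} {n : ℕ} (s : Finset ι) (f : ι → ℚ) (h : ∀ i ∈ s, D p n (f i)) :
    D p n (∑ i ∈ s, f i) := by
  classical
  induction s using Finset.induction_on with
  | empty => exact ⟨0, (Z p).zero_mem, by simp⟩
  | insert i s hi ih =>
    rw [Finset.sum_insert hi]
    exact (h i (Finset.mem_insert_self i s)).add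
      (ih fun j hj => h j (Finset.mem_insert_of_mem hj))

lemma congr {n : ℕ} {x y : ℚ} (hx : D p n x) (h : x = y) : D p n y := h ▸ hx

/-- cancel a unit -/
lemma cancel {n : ℕ} {x : ℚ} {k : ℕ} (hk : ((k : ℚ))⁻¹ ∈ Z p) (h0 : k ≠ 0)
    (hx : D p n ((k : ℚ) * x)) : D p n x := by
  have h := smul hk hx
  rwa [inv_mul_cancel_left₀ (Nat.cast_ne_zero.mpr h0)] at h

lemma of_int_dvd {n : ℕ} {m : ℤ} (h : (p : ℤ) ^ n ∣ m) : D p n (m : ℚ) := by
  obtain ⟨k, rfl⟩ := h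
  exact ⟨k, _root_.intCast_mem (Z p) k, by push_cast; ring⟩

lemma dvd_num {n : ℕ} {x : ℚ} (h : D p n x) : (p : ℤ) ^ n ∣ x.num := by
  obtain ⟨r, ⟨m, k, h1, h2, h3⟩, rfl⟩ := h
  set x : ℚ := (p : ℚ) ^ n * r with hx
  have e1 : (x.num : ℚ) * k = (p : ℚ) ^ n * m * x.den := by
    have h4 : x * x.den = x.num := Rat.mul_den_eq_num x
    rw [← h4, ← h3, hx]
    ring
  have e2 : x.num * (k : ℤ) = (p : ℤ) ^ n * m * x.den := by exact_mod_cast e1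
  have hc : IsCoprime ((p : ℤ) ^ n) (k : ℤ) := by
    refine IsCoprime.pow_left ?_
    exact Nat.isCoprime_iff_coprime.mpr h1.symm
  refine hc.dvd_of_dvd_mul_right ?_
  rw [e2, mul_assoc]
  exact Dvd.intro _ rfl

lemma int_dvd {n : ℕ} {m : ℤ} (h : D p n (m : ℚ)) : (p : ℤ) ^ n ∣ m := by
  have := dvd_num h
  rwa [Rat.num_intCast] at this

lemma of_dvd_num {x : ℚ} (h : (p : ℤ) ∣ x.num) : D p 1 x := by
  obtain ⟨k, hk⟩ := h
  have hc : x.den.Coprime p := by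
    have h1 : x.num.natAbs.Coprime x.den := x.reduced
    have h2 : p ∣ x.num.natAbs := by
      rw [hk, Int.natAbs_mul, Int.natAbs_natCast]
      exact Dvd.intro _ rfl
    exact (Nat.Coprime.coprime_dvd_left h2 h1).symm
  refine ⟨(k : ℚ) * (x.den : ℚ)⁻¹, (Z p).mul_mem (_root_.intCast_mem (Z p) k)
    (inv_mem_of_coprime hc x.den_nz), ?_⟩
  have h3 : (x.num : ℚ) / x.den = x := Rat.num_div_den x
  have h4 : (x.num : ℚ) = p * k := by exact_mod_cast congrArg (Int.cast (R := ℚ)) hk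
  calc x = (x.num : ℚ) / x.den := h3.symm
    _ = _ := by rw [h4]; ring

end D

/-- Fermat. -/
lemma fermat (hp : p.Prime) {n : ℕ} (hn : n.Coprime p) : D p 1 ((n : ℚ) ^ (p - 1) - 1) := by
  have h1 : (n : ℤ) ^ (p - 1) ≡ 1 [ZMOD p] :=
    Int.ModEq.pow_card_sub_one_eq_one hp (Nat.isCoprime_iff_coprime.mpr hn)
  have h2 : (p : ℤ) ^ 1 ∣ (n : ℤ) ^ (p - 1) - 1 := by
    rw [pow_one]
    exact h1.symm.dvd
  have h3 := D.of_int_dvd h2
  exact_mod_cast h3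

/-- `n^(p-1-k) ≡ n^(-k)`. -/
lemma fermat_inv (hp : p.Prime) {n : ℕ} (hn : n.Coprime p) (h0 : n ≠ 0) {k : ℕ} (hk : k ≤ p - 1) :
    D p 1 ((n : ℚ) ^ (p - 1 - k) - ((n : ℚ)⁻¹) ^ k) := by
  have h1 := D.smul ((Z p).pow_mem (inv_mem_of_coprime hn h0) k) (fermat hp hn)
  refine h1.congr ?_
  have h2 : (n : ℚ) ≠ 0 := Nat.cast_ne_zero.mpr h0
  have h3 : (n : ℚ) ^ (p - 1) = (n : ℚ) ^ (p - 1 - k) * (n : ℚ) ^ k := by
    rw [← pow_add]
    congr 1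
    omega
  rw [h3, inv_pow]
  field_simp

/-- The Bernoulli numbers `B_k`, `k ≤ p - 2`, are `p`-integral. -/
lemma bernoulli_mem (hp : p.Prime) (k : ℕ) (hk : k + 1 < p) : bernoulli k ∈ Z p := by
  induction k using Nat.strong_induction_on with
  | _ k ih =>
    have h := sum_bernoulli (k + 1)
    rw [Finset.sum_range_succ, Nat.choose_succ_self_right] at h
    have h1 : (∑ x ∈ range k, ((k + 1).choose x : ℚ) * bernoulli x) ∈ Z p :=
      (Z p).sum_mem fun i hi => (Z p).mul_mem (natCast_mem p _)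
        (ih i (Finset.mem_range.mp hi) (by have := Finset.mem_range.mp hi; omega))
    have h2 : (((k + 1 : ℕ) : ℚ)) * bernoulli k ∈ Z p := by
      have h3 : (((k + 1 : ℕ) : ℚ)) * bernoulli k =
          (if k + 1 = 1 then 1 else 0) - ∑ x ∈ range k, ((k + 1).choose x : ℚ) * bernoulli x := by
        rw [← h]
        ring
      rw [h3]
      refine (Z p).sub_mem ?_ h1
      split_ifs
      · exact (Z p).one_mem
      · exact (Z p).zero_mem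
    have h4 := (Z p).mul_mem (inv_mem hp (Nat.succ_pos k) hk) h2
    rwa [inv_mul_cancel_left₀ (Nat.cast_ne_zero.mpr (Nat.succ_ne_zero k))] at h4

/-- `(C(p-1,i) C(p+i,i))^2 = 1 - 2 p^2 ∑_{k ≤ i} 1/k^2` up to `p^4`. -/
lemma csq (hp : p.Prime) (i : ℕ) (hi : i < p) :
    D p 4 ((((p - 1).choose i : ℚ) * ((p + i).choose i : ℚ)) ^ 2 -
      (1 - 2 * (p : ℚ) ^ 2 * ∑ k ∈ Ico 1 (i + 1), ((k : ℚ)⁻¹) ^ 2)) := by
  induction i with
  | zero => exact ⟨0, (Z p).zero_mem, by simp⟩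
  | succ i ih =>
    obtain ⟨r, hr, hre⟩ := ih (by omega)
    have hH : (∑ k ∈ Ico 1 (i + 1), ((k : ℚ)⁻¹) ^ 2) ∈ Z p :=
      (Z p).sum_mem fun k hk => by
        rw [Finset.mem_Ico] at hk
        exact (Z p).pow_mem (inv_mem hp (by omega) (by omega)) 2
    have hu : ((i + 1 : ℕ) : ℚ)⁻¹ ∈ Z p := inv_mem hp (by omega) hi
    have h1 : (p - 1).choose (i + 1) * (i + 1) = (p - 1).choose i * (p - 1 - i) :=
      Nat.choose_succ_right_eq _ _
    have h2 : (p + (i + 1)).choose (i + 1) * (i + 1) = (p + i + 1) * (p + i).choose i :=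
      (Nat.add_one_mul_choose_eq (p + i) i).symm
    have h1' : ((p - 1).choose (i + 1) : ℚ) * ((i + 1 : ℕ) : ℚ) =
        ((p - 1).choose i : ℚ) * ((p : ℚ) - ((i + 1 : ℕ) : ℚ)) := by
      have e : ((p - 1 - i : ℕ) : ℚ) = (p : ℚ) - ((i + 1 : ℕ) : ℚ) := by
        have : p - 1 - i = p - (i + 1) := by omega
        rw [this, Nat.cast_sub (by omega)]
      rw [← e]
      exact_mod_cast h1
    have h2' : ((p + (i + 1)).choose (i + 1) : ℚ) * ((i + 1 : ℕ) : ℚ) =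
        ((p : ℚ) + ((i + 1 : ℕ) : ℚ)) * ((p + i).choose i : ℚ) := by
      have := congrArg (Nat.cast (R := ℚ)) h2
      push_cast at this ⊢
      linarith
    have hne : ((i + 1 : ℕ) : ℚ) ≠ 0 := Nat.cast_ne_zero.mpr (Nat.succ_ne_zero i)
    set x : ℚ := ((i + 1 : ℕ) : ℚ) with hx
    set c : ℚ := ((p - 1).choose i : ℚ) * ((p + i).choose i : ℚ) with hc
    have h3 : ((p - 1).choose (i + 1) : ℚ) * ((p + (i + 1)).choose (i + 1) : ℚ) =
        c * ((p : ℚ) ^ 2 * (x⁻¹) ^ 2 - 1) := by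
      have e1 : ((p - 1).choose (i + 1) : ℚ) = ((p - 1).choose i : ℚ) * ((p : ℚ) - x) * x⁻¹ := by
        rw [← h1']
        field_simp
      have e2 : ((p + (i + 1)).choose (i + 1) : ℚ) = ((p : ℚ) + x) * ((p + i).choose i : ℚ) * x⁻¹ := by
        rw [← h2']
        field_simp
      rw [e1, e2, hc]
      field_simp
      ring
    rw [Finset.sum_Ico_succ_top (by omega), h3, mul_pow]
    have h4 : c ^ 2 = 1 - 2 * (p : ℚ) ^ 2 * ∑ k ∈ Ico 1 (i + 1), ((k : ℚ)⁻¹) ^ 2 +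
        (p : ℚ) ^ 4 * r := by linarith
    rw [h4]
    set H : ℚ := ∑ k ∈ Ico 1 (i + 1), ((k : ℚ)⁻¹) ^ 2 with hHd
    have hp' := natCast_mem p p
    have hp2 := (Z p).pow_mem hp' 2
    have hu2 := (Z p).pow_mem hu 2
    have two : (2 : ℚ) ∈ Z p := by exact_mod_cast natCast_mem p 2
    have four : (4 : ℚ) ∈ Z p := by exact_mod_cast natCast_mem p 4
    refine ⟨r * (1 - 2 * (p : ℚ) ^ 2 * (x⁻¹) ^ 2 + ((p : ℚ) ^ 2 * (x⁻¹) ^ 2) ^ 2) +
      4 * H * (x⁻¹) ^ 2 + ((x⁻¹) ^ 2) ^ 2 * (1 - 2 * (p : ℚ) ^ 2 * H), ?_, by ring⟩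
    refine (Z p).add_mem ((Z p).add_mem ((Z p).mul_mem hr ?_) ?_) ?_
    · exact (Z p).add_mem ((Z p).sub_mem (Z p).one_mem
        ((Z p).mul_mem ((Z p).mul_mem two hp2) hu2))
        ((Z p).pow_mem ((Z p).mul_mem hp2 hu2) 2)
    · exact (Z p).mul_mem ((Z p).mul_mem four hH) hu2
    · exact (Z p).mul_mem ((Z p).pow_mem hu2 2) ((Z p).sub_mem (Z p).one_mem
        ((Z p).mul_mem ((Z p).mul_mem two hp2) hH))

lemma two_mem (p : ℕ) : (2 : ℚ) ∈ Z p := by exact_mod_cast natCast_mem p 2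

lemma ofNat_mem (p n : ℕ) [n.AtLeastTwo] : (OfNat.ofNat n : ℚ) ∈ Z p := by
  exact_mod_cast natCast_mem p n

/-- the term with index `i + 1` -/
lemma term_rat (hp : p.Prime) (i : ℕ) (hi : i + 1 < p) :
    ((p.choose (i + 1) * (p - 1).choose (i + 1) * (p + (i + 1) - 1).choose (i + 1) ^ 2 : ℕ) : ℚ) =
      (p : ℚ) ^ 3 * (((p : ℚ) - ((i + 1 : ℕ) : ℚ)) * ((((i + 1 : ℕ) : ℚ))⁻¹) ^ 4 *
        (((p - 1).choose i : ℚ) * ((p + i).choose i : ℚ)) ^ 2) := by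
  obtain ⟨q, rfl⟩ : ∃ q, p = q + 1 := ⟨p - 1, by have := hp.pos; omega⟩
  have hpj : q + 1 + (i + 1) - 1 = q + 1 + i := by omega
  have hq1 : q + 1 - 1 = q := by omega
  rw [hpj, hq1]
  have h1 : (q + 1).choose (i + 1) * (i + 1) = (q + 1) * q.choose i :=
    (Nat.add_one_mul_choose_eq q i).symm
  have h2 : (q + 1 + i).choose (i + 1) * (i + 1) = (q + 1 + i).choose i * (q + 1) := by
    have := Nat.choose_succ_right_eq (q + 1 + i) i
    rw [this]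
    congr 1
    omega
  have h5 : q.choose (i + 1) * (i + 1) = q.choose i * (q - i) := Nat.choose_succ_right_eq _ _
  have h1' : ((q + 1).choose (i + 1) : ℚ) * ((i + 1 : ℕ) : ℚ) = ((q + 1 : ℕ) : ℚ) * q.choose i := by
    exact_mod_cast h1
  have h2' : ((q + 1 + i).choose (i + 1) : ℚ) * ((i + 1 : ℕ) : ℚ) =
      (q + 1 + i).choose i * ((q + 1 : ℕ) : ℚ) := by
    exact_mod_cast h2
  have h5' : (q.choose (i + 1) : ℚ) * ((i + 1 : ℕ) : ℚ) =
      q.choose i * (((q + 1 : ℕ) : ℚ) - ((i + 1 : ℕ) : ℚ)) := by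
    have e : ((q - i : ℕ) : ℚ) = ((q + 1 : ℕ) : ℚ) - ((i + 1 : ℕ) : ℚ) := by
      rw [← Nat.cast_sub (by omega)]
      congr 1
      omega
    rw [← e]
    exact_mod_cast h5
  have hne : ((i + 1 : ℕ) : ℚ) ≠ 0 := Nat.cast_ne_zero.mpr (Nat.succ_ne_zero i)
  rw [Nat.cast_mul, Nat.cast_mul, Nat.cast_pow]
  set x : ℚ := ((i + 1 : ℕ) : ℚ) with hx
  set P : ℚ := ((q + 1 : ℕ) : ℚ) with hP
  have e1 : ((q + 1).choose (i + 1) : ℚ) = P * q.choose i * x⁻¹ := by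
    rw [← h1']
    field_simp
  have e2 : ((q + 1 + i).choose (i + 1) : ℚ) = (q + 1 + i).choose i * P * x⁻¹ := by
    rw [← h2']
    field_simp
  have e5 : (q.choose (i + 1) : ℚ) = q.choose i * (P - x) * x⁻¹ := by
    rw [← h5']
    field_simp
  rw [e1, e2, e5]
  ring

/-- inverse power sums -/
def H (p k : ℕ) : ℚ := ∑ j ∈ Ico 1 p, ((j : ℚ)⁻¹) ^ k

/-- the double sum -/
def K (p : ℕ) : ℚ := ∑ j ∈ Ico 1 p, (∑ k ∈ Ico 1 j, ((k : ℚ)⁻¹) ^ 2) * ((j : ℚ)⁻¹) ^ 3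

lemma a_eq (hp : p.Prime) :
    D p 6 ((aSum p : ℚ) - 1 - (p : ℚ) ^ 3 * ((p : ℚ) * H p 4 - H p 3 + 2 * (p : ℚ) ^ 2 * K p)) := by
  have ha : (aSum p : ℚ) = 1 + ∑ j ∈ Ico 1 p,
      ((p.choose j * (p - 1).choose j * (p + j - 1).choose j ^ 2 : ℕ) : ℚ) := by
    unfold aSum
    rw [Finset.range_eq_Ico, Finset.sum_eq_sum_Ico_succ_bot hp.pos]
    push_cast
    simp
  have hT : (p : ℚ) ^ 3 * ((p : ℚ) * H p 4 - H p 3 + 2 * (p : ℚ) ^ 2 * K p) =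
      ∑ j ∈ Ico 1 p, (p : ℚ) ^ 3 * ((p : ℚ) * ((j : ℚ)⁻¹) ^ 4 - ((j : ℚ)⁻¹) ^ 3 +
        2 * (p : ℚ) ^ 2 * ((∑ k ∈ Ico 1 j, ((k : ℚ)⁻¹) ^ 2) * ((j : ℚ)⁻¹) ^ 3)) := by
    unfold H K
    rw [← Finset.mul_sum, Finset.sum_add_distrib, Finset.sum_sub_distrib, ← Finset.mul_sum,
      ← Finset.mul_sum]
  rw [ha, hT, add_sub_cancel_left, ← Finset.sum_sub_distrib]
  refine D.sum _ _ fun j hj => ?_
  rw [Finset.mem_Ico] at hj
  obtain ⟨i, rfl⟩ : ∃ i, j = i + 1 := ⟨j - 1, by omega⟩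
  rw [term_rat hp i (by omega), ← mul_sub]
  obtain ⟨r, hr, hre⟩ := csq hp i (by omega)
  have hc : (((p - 1).choose i : ℚ) * ((p + i).choose i : ℚ)) ^ 2 =
      (1 - 2 * (p : ℚ) ^ 2 * ∑ k ∈ Ico 1 (i + 1), ((k : ℚ)⁻¹) ^ 2) + (p : ℚ) ^ 4 * r := by
    linarith
  rw [hc]
  have hH : (∑ k ∈ Ico 1 (i + 1), ((k : ℚ)⁻¹) ^ 2) ∈ Z p :=
    (Z p).sum_mem fun k hk => by
      rw [Finset.mem_Ico] at hk
      exact (Z p).pow_mem (inv_mem hp (by omega) (by omega)) 2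
  have hu : ((i + 1 : ℕ) : ℚ)⁻¹ ∈ Z p := inv_mem hp (by omega) hj.2
  have hne : ((i + 1 : ℕ) : ℚ) ≠ 0 := Nat.cast_ne_zero.mpr (Nat.succ_ne_zero i)
  set x : ℚ := ((i + 1 : ℕ) : ℚ) with hx
  set h : ℚ := ∑ k ∈ Ico 1 (i + 1), ((k : ℚ)⁻¹) ^ 2 with hh
  have hpm := natCast_mem p p
  have hxm : x ∈ Z p := natCast_mem p (i + 1)
  have e : x * x⁻¹ = 1 := mul_inv_cancel₀ hne
  refine ⟨-2 * h * (x⁻¹) ^ 4 + (p : ℚ) * ((p : ℚ) - x) * (x⁻¹) ^ 4 * r, ?_, ?_⟩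
  · refine (Z p).add_mem ?_ ?_
    · exact (Z p).mul_mem ((Z p).mul_mem ((Z p).neg_mem (two_mem p)) hH) ((Z p).pow_mem hu 4)
    · exact (Z p).mul_mem ((Z p).mul_mem ((Z p).mul_mem hpm ((Z p).sub_mem hpm hxm))
        ((Z p).pow_mem hu 4)) hr
  · have e4 : x * (x⁻¹) ^ 4 = (x⁻¹) ^ 3 := by
      rw [pow_succ' (x⁻¹) 3, ← mul_assoc, e, one_mul]
    linear_combination (-(p : ℚ) ^ 3 * (1 - 2 * (p : ℚ) ^ 2 * h)) * e4

lemma H_mem (hp : p.Prime) (k : ℕ) : H p k ∈ Z p :=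
  (Z p).sum_mem fun j hj => by
    rw [Finset.mem_Ico] at hj
    exact (Z p).pow_mem (inv_mem hp (by omega) hj.2) k

/-- reflection of the summation index -/
lemma H_refl (k : ℕ) : H p k = ∑ j ∈ Ico 1 p, (((p - j : ℕ) : ℚ)⁻¹) ^ k := by
  unfold H
  refine Finset.sum_nbij' (fun j => p - j) (fun j => p - j) ?_ ?_ ?_ ?_ ?_
  · intro j hj; simp only [Finset.mem_Ico] at hj ⊢; omega
  · intro j hj; simp only [Finset.mem_Ico] at hj ⊢; omega
  · intro j hj; simp only [Finset.mem_Ico] at hj; omega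
  · intro j hj; simp only [Finset.mem_Ico] at hj; omega
  · intro j hj
    simp only [Finset.mem_Ico] at hj
    congr 3
    omega

lemma H5 (hp : p.Prime) (h5 : 5 ≤ p) : D p 1 (H p 5) := by
  refine D.cancel (k := 2) (inv_mem hp (by norm_num) (by omega)) (by norm_num) ?_
  have e : ((2 : ℕ) : ℚ) * H p 5 = ∑ j ∈ Ico 1 p, (((j : ℚ)⁻¹) ^ 5 + (((p - j : ℕ) : ℚ)⁻¹) ^ 5) := by
    rw [Finset.sum_add_distrib, ← H_refl]
    unfold H
    push_cast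
    ring
  rw [e]
  refine D.sum _ _ fun j hj => ?_
  rw [Finset.mem_Ico] at hj
  have hx : (j : ℚ)⁻¹ ∈ Z p := inv_mem hp (by omega) hj.2
  have hy : ((p - j : ℕ) : ℚ)⁻¹ ∈ Z p := inv_mem hp (by omega) (by omega)
  have hx0 : (j : ℚ) ≠ 0 := Nat.cast_ne_zero.mpr (by omega)
  have hy0 : ((p - j : ℕ) : ℚ) ≠ 0 := Nat.cast_ne_zero.mpr (by omega)
  have hxm := natCast_mem p j
  have hym := natCast_mem p (p - j)
  have hpxy : (p : ℚ) = (j : ℚ) + ((p - j : ℕ) : ℚ) := by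
    rw [← Nat.cast_add]
    congr 1
    omega
  set x : ℚ := (j : ℚ) with hxd
  set y : ℚ := ((p - j : ℕ) : ℚ) with hyd
  refine ⟨(x ^ 4 - x ^ 3 * y + x ^ 2 * y ^ 2 - x * y ^ 3 + y ^ 4) * (x⁻¹ * y⁻¹) ^ 5, ?_, ?_⟩
  · refine (Z p).mul_mem ?_ ((Z p).pow_mem ((Z p).mul_mem hx hy) 5)
    exact (Z p).add_mem ((Z p).sub_mem ((Z p).add_mem ((Z p).sub_mem ((Z p).pow_mem hxm 4)
      ((Z p).mul_mem ((Z p).pow_mem hxm 3) hym)) ((Z p).mul_mem ((Z p).pow_mem hxm 2)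
      ((Z p).pow_mem hym 2))) ((Z p).mul_mem hxm ((Z p).pow_mem hym 3))) ((Z p).pow_mem hym 4)
  · rw [hpxy]
    field_simp
    ring

lemma H34 (hp : p.Prime) (h5 : 5 ≤ p) : D p 3 (2 * H p 3 + 3 * (p : ℚ) * H p 4) := by
  have h6 : D p 3 (-6 * ((p : ℚ) ^ 2 * H p 5)) :=
    D.smul (by exact (Z p).neg_mem (ofNat_mem p 6)) (D.pmul 2 (H5 hp h5))
  have e : 2 * H p 3 + 3 * (p : ℚ) * H p 4 = (∑ j ∈ Ico 1 p, (((j : ℚ)⁻¹) ^ 3 +
      (((p - j : ℕ) : ℚ)⁻¹) ^ 3 + 3 * (p : ℚ) * ((j : ℚ)⁻¹) ^ 4 +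
        6 * (p : ℚ) ^ 2 * ((j : ℚ)⁻¹) ^ 5)) + -6 * ((p : ℚ) ^ 2 * H p 5) := by
    rw [Finset.sum_add_distrib, Finset.sum_add_distrib, Finset.sum_add_distrib, ← H_refl,
      ← Finset.mul_sum, ← Finset.mul_sum]
    unfold H
    ring
  rw [e]
  refine D.add (D.sum _ _ fun j hj => ?_) h6
  rw [Finset.mem_Ico] at hj
  have hx : (j : ℚ)⁻¹ ∈ Z p := inv_mem hp (by omega) hj.2
  have hy : ((p - j : ℕ) : ℚ)⁻¹ ∈ Z p := inv_mem hp (by omega) (by omega)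
  have hx0 : (j : ℚ) ≠ 0 := Nat.cast_ne_zero.mpr (by omega)
  have hy0 : ((p - j : ℕ) : ℚ) ≠ 0 := Nat.cast_ne_zero.mpr (by omega)
  have hxm := natCast_mem p j
  have hpm := natCast_mem p p
  have hpxy : ((p - j : ℕ) : ℚ) = (p : ℚ) - (j : ℚ) := Nat.cast_sub (by omega)
  rw [hpxy] at hy hy0 ⊢
  set x : ℚ := (j : ℚ) with hxd
  refine ⟨(10 * x ^ 2 - 15 * (p : ℚ) * x + 6 * (p : ℚ) ^ 2) * ((x⁻¹) ^ 5 * (((p : ℚ) - x)⁻¹) ^ 3),
    ?_, ?_⟩
  · refine (Z p).mul_mem ?_ ((Z p).mul_mem ((Z p).pow_mem hx 5) ((Z p).pow_mem hy 3))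
    exact (Z p).add_mem ((Z p).sub_mem ((Z p).mul_mem (ofNat_mem p 10) ((Z p).pow_mem hxm 2))
      ((Z p).mul_mem ((Z p).mul_mem (ofNat_mem p 15) hpm) hxm))
      ((Z p).mul_mem (ofNat_mem p 6) ((Z p).pow_mem hpm 2))
  · field_simp
    ring

/-- parity splitting -/
lemma split (f : ℕ → ℚ) (h : ℕ) : ∑ j ∈ range (2 * h + 1), f j =
    ∑ i ∈ range (h + 1), f (2 * i) + ∑ t ∈ range h, f (2 * t + 1) := by
  induction h with
  | zero => simp
  | succ h ih =>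
    have e : 2 * (h + 1) + 1 = 2 * h + 1 + 1 + 1 := by ring
    rw [e, Finset.sum_range_succ, Finset.sum_range_succ, ih, Finset.sum_range_succ _ (h + 1),
      Finset.sum_range_succ (fun t => f (2 * t + 1)) h]
    have e2 : 2 * (h + 1) = 2 * h + 1 + 1 := by ring
    rw [e2]
    ring

/-- doubling -/
lemma doubling (f : ℕ → ℚ) (h : ℕ) (hp : p = 2 * h + 1) :
    ∑ i ∈ range p, f (2 * i) - ∑ j ∈ range p, f j =
      ∑ t ∈ range h, (f (2 * t + 1 + p) - f (2 * t + 1)) := by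
  subst hp
  have e1 : ∑ i ∈ range (2 * h + 1), f (2 * i) = ∑ i ∈ range (h + 1), f (2 * i) +
      ∑ t ∈ range h, f (2 * t + 1 + (2 * h + 1)) := by
    have e : 2 * h + 1 = (h + 1) + h := by ring
    rw [e, Finset.sum_range_add]
    congr 1
    refine Finset.sum_congr rfl fun t _ => ?_
    congr 1
    ring
  rw [e1, split, Finset.sum_sub_distrib]
  ring

lemma odd_coprime (hp : p.Prime) {h t : ℕ} (h2 : p = 2 * h + 1) (ht : t < h) :
    (2 * t + 1).Coprime p ∧ (2 * t + 1 + p).Coprime p := by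
  have h1 : (2 * t + 1).Coprime p := (Nat.coprime_of_lt_prime (by omega) (by omega) hp).symm
  exact ⟨h1, by simpa using h1⟩

/-- the sum of `1/n^5` over the odd numbers below `p` -/
def O (h : ℕ) : ℚ := ∑ t ∈ range h, (((2 * t + 1 : ℕ) : ℚ)⁻¹) ^ 5

lemma O_mem (hp : p.Prime) {h : ℕ} (h2 : p = 2 * h + 1) : O h ∈ Z p :=
  (Z p).sum_mem fun t ht => (Z p).pow_mem (inv_mem_of_coprime
    (odd_coprime hp h2 (Finset.mem_range.mp ht)).1 (by omega)) 5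

lemma range_H (hp : p.Prime) {k : ℕ} (hk : k ≠ 0) : ∑ j ∈ range p, ((j : ℚ)⁻¹) ^ k = H p k := by
  rw [Finset.range_eq_Ico, Finset.sum_eq_sum_Ico_succ_bot hp.pos]
  simp [H, hk]

lemma double_inv (hp : p.Prime) {h : ℕ} (h2 : p = 2 * h + 1) :
    D p 2 ((1 / 16 - 1) * H p 4 + 4 * (p : ℚ) * O h) := by
  have h4 := doubling (p := p) (fun j => ((j : ℚ)⁻¹) ^ 4) h h2
  beta_reduce at h4
  have e1 : ∑ i ∈ range p, (((2 * i : ℕ) : ℚ)⁻¹) ^ 4 = 1 / 16 * H p 4 := by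
    rw [← range_H hp (by norm_num), Finset.mul_sum]
    refine Finset.sum_congr rfl fun i _ => ?_
    rw [Nat.cast_mul, mul_inv, mul_pow]
    norm_num
  rw [e1, range_H hp (by norm_num)] at h4
  have e2 : (1 / 16 - 1) * H p 4 + 4 * (p : ℚ) * O h = ∑ t ∈ range h,
      ((((2 * t + 1 + p : ℕ) : ℚ)⁻¹) ^ 4 - (((2 * t + 1 : ℕ) : ℚ)⁻¹) ^ 4 +
        4 * (p : ℚ) * (((2 * t + 1 : ℕ) : ℚ)⁻¹) ^ 5) := by
    rw [Finset.sum_add_distrib, ← h4, ← Finset.mul_sum]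
    unfold O
    ring
  rw [e2]
  refine D.sum _ _ fun t ht => ?_
  rw [Finset.mem_range] at ht
  obtain ⟨c1, c2⟩ := odd_coprime hp h2 ht
  have hx := inv_mem_of_coprime c1 (by omega)
  have hy := inv_mem_of_coprime c2 (by omega)
  have hx0 : ((2 * t + 1 : ℕ) : ℚ) ≠ 0 := Nat.cast_ne_zero.mpr (by omega)
  have hy0 : ((2 * t + 1 + p : ℕ) : ℚ) ≠ 0 := Nat.cast_ne_zero.mpr (by omega)
  have hxy : ((2 * t + 1 + p : ℕ) : ℚ) = ((2 * t + 1 : ℕ) : ℚ) + (p : ℚ) := Nat.cast_add _ _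
  have hxm := natCast_mem p (2 * t + 1)
  have hpm := natCast_mem p p
  rw [hxy] at hy hy0 ⊢
  set n : ℚ := ((2 * t + 1 : ℕ) : ℚ) with hn
  refine ⟨(10 * n ^ 3 + 20 * n ^ 2 * (p : ℚ) + 15 * n * (p : ℚ) ^ 2 + 4 * (p : ℚ) ^ 3) *
    ((n⁻¹) ^ 5 * ((n + (p : ℚ))⁻¹) ^ 4), ?_, ?_⟩
  · refine (Z p).mul_mem ?_ ((Z p).mul_mem ((Z p).pow_mem hx 5) ((Z p).pow_mem hy 4))
    exact (Z p).add_mem ((Z p).add_mem ((Z p).add_mem
      ((Z p).mul_mem (ofNat_mem p 10) ((Z p).pow_mem hxm 3))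
      ((Z p).mul_mem ((Z p).mul_mem (ofNat_mem p 20) ((Z p).pow_mem hxm 2)) hpm))
      ((Z p).mul_mem ((Z p).mul_mem (ofNat_mem p 15) hxm) ((Z p).pow_mem hpm 2)))
      ((Z p).mul_mem (ofNat_mem p 4) ((Z p).pow_mem hpm 3))
  · field_simp
    ring

/-- the power sum with exponent `p - 5` -/
def P (p : ℕ) : ℚ := ∑ j ∈ range p, (j : ℚ) ^ (p - 5)

lemma P_eq (hp : p.Prime) (h7 : 7 ≤ p) : D p 2 (P p - (p : ℚ) * bernoulli (p - 5)) := by
  obtain ⟨q, hq⟩ : ∃ q, p = q + 5 := ⟨p - 5, by omega⟩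
  have hq5 : p - 5 = q := by omega
  unfold P
  rw [hq5, sum_range_pow, Finset.sum_range_succ]
  have hq0 : ((q : ℚ) + 1) ≠ 0 := by positivity
  have e1 : bernoulli q * ((q + 1).choose q : ℚ) * (p : ℚ) ^ (q + 1 - q) / ((q : ℚ) + 1) =
      (p : ℚ) * bernoulli q := by
    have h1 : q + 1 - q = 1 := by omega
    rw [Nat.choose_succ_self_right, h1, pow_one]
    push_cast
    field_simp
  rw [e1, add_sub_cancel_right]
  refine D.sum _ _ fun i hi => ?_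
  rw [Finset.mem_range] at hi
  have h2 : q + 1 - i = 2 + (q - 1 - i) := by omega
  have hb : bernoulli i ∈ Z p := bernoulli_mem hp i (by omega)
  have hinv : (((q + 1 : ℕ) : ℚ))⁻¹ ∈ Z p := inv_mem hp (by omega) (by omega)
  refine ⟨bernoulli i * ((q + 1).choose i : ℚ) * (p : ℚ) ^ (q - 1 - i) * (((q + 1 : ℕ) : ℚ))⁻¹,
    ?_, ?_⟩
  · exact (Z p).mul_mem ((Z p).mul_mem ((Z p).mul_mem hb (natCast_mem p _))
      ((Z p).pow_mem (natCast_mem p p) _)) hinv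
  · rw [h2, pow_add]
    push_cast
    field_simp

lemma double_pow (hp : p.Prime) (h7 : 7 ≤ p) {h : ℕ} (h2 : p = 2 * h + 1) :
    D p 2 ((1 / 16 - 1) * P p + 5 * (p : ℚ) * O h) := by
  obtain ⟨q, hq⟩ : ∃ q, p = q + 1 + 5 := ⟨p - 6, by omega⟩
  have hq5 : p - 5 = q + 1 := by omega
  have hb : bernoulli (p - 5) ∈ Z p := bernoulli_mem hp _ (by omega)
  have h4 := doubling (p := p) (fun j => (j : ℚ) ^ (q + 1)) h h2
  beta_reduce at h4
  have hP : P p = ∑ j ∈ range p, (j : ℚ) ^ (q + 1) := by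
    unfold P
    rw [hq5]
  have e1 : ∑ i ∈ range p, ((2 * i : ℕ) : ℚ) ^ (q + 1) = 2 ^ (q + 1) * P p := by
    rw [hP, Finset.mul_sum]
    refine Finset.sum_congr rfl fun i _ => ?_
    rw [Nat.cast_mul, mul_pow]
    norm_num
  rw [e1, ← hP] at h4
  -- the summands
  have s1 : D p 2 (∑ t ∈ range h, ((((2 * t + 1 + p : ℕ) : ℚ)) ^ (q + 1) -
      (((2 * t + 1 : ℕ) : ℚ)) ^ (q + 1) + 5 * (p : ℚ) * (((2 * t + 1 : ℕ) : ℚ)⁻¹) ^ 5)) := by
    refine D.sum _ _ fun t ht => ?_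
    rw [Finset.mem_range] at ht
    obtain ⟨c1, c2⟩ := odd_coprime hp h2 ht
    have hx := inv_mem_of_coprime c1 (by omega)
    have hf := fermat_inv hp c1 (by omega) (k := 5) (by omega)
    have hq6 : p - 1 - 5 = q := by omega
    rw [hq6] at hf
    obtain ⟨k, hk⟩ := Polynomial.powAddExpansion (2 * t + 1) p (q + 1)
    have hk' : (((2 * t + 1 + p : ℕ) : ℚ)) ^ (q + 1) = (((2 * t + 1 : ℕ) : ℚ)) ^ (q + 1) +
        ((q + 1 : ℕ) : ℚ) * (((2 * t + 1 : ℕ) : ℚ)) ^ q * (p : ℚ) + (k : ℚ) * (p : ℚ) ^ 2 := by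
      rw [Nat.add_sub_cancel] at hk
      exact_mod_cast congrArg (Nat.cast (R := ℚ)) hk
    have hpq : ((q + 1 : ℕ) : ℚ) = (p : ℚ) - 5 := by
      rw [hq]
      push_cast
      ring
    rw [hk', hpq]
    set n : ℚ := ((2 * t + 1 : ℕ) : ℚ) with hn
    have hnm : n ∈ Z p := natCast_mem p _
    have t1 : D p 2 ((p : ℚ) ^ 2 * (n ^ q + k)) :=
      D.of_mem ((Z p).add_mem ((Z p).pow_mem hnm q) (natCast_mem p k))
    have t2 : D p 2 (-5 * ((p : ℚ) ^ 1 * (n ^ q - (n⁻¹) ^ 5))) :=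
      D.smul (by exact (Z p).neg_mem (ofNat_mem p 5)) (D.pmul 1 hf)
    exact (t1.add t2).congr (by ring)
  have e2 : (2 ^ (q + 1) - 1) * P p + 5 * (p : ℚ) * O h = ∑ t ∈ range h,
      ((((2 * t + 1 + p : ℕ) : ℚ)) ^ (q + 1) - (((2 * t + 1 : ℕ) : ℚ)) ^ (q + 1) +
        5 * (p : ℚ) * (((2 * t + 1 : ℕ) : ℚ)⁻¹) ^ 5) := by
    rw [Finset.sum_add_distrib, ← h4, ← Finset.mul_sum]
    unfold O
    ring
  rw [← e2] at s1
  -- `2^(q+1) ≡ 1/16`
  have hc2 : (2 : ℕ).Coprime p := (Nat.coprime_of_lt_prime (by norm_num) (by omega) hp).symm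
  have f2 := fermat_inv hp hc2 (by norm_num) (k := 4) (by omega)
  have hq4 : p - 1 - 4 = q + 1 := by omega
  rw [hq4] at f2
  have hPD : D p 1 (P p) := by
    have := ((P_eq hp h7).mono (show 1 ≤ 2 by norm_num)).add (D.of_mem (n := 1) hb)
    exact this.congr (by ring)
  have f3 := f2.mul hPD
  have f4 : D p 2 (((2 : ℚ) ^ (q + 1) - 1 / 16) * P p) := by
    refine f3.congr ?_
    norm_num
  exact (s1.sub f4).congr (by ring)

lemma H4_eq (hp : p.Prime) (h7 : 7 ≤ p) :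
    D p 2 (5 * H p 4 - 4 * (p : ℚ) * bernoulli (p - 5)) := by
  obtain ⟨h, h2⟩ : ∃ h, p = 2 * h + 1 := by
    rcases hp.eq_two_or_odd' with h | ⟨h, hh⟩
    · omega
    · exact ⟨h, hh⟩
  have t1 := D.smul (ofNat_mem p 5) (double_inv hp h2)
  have t2 := D.smul (ofNat_mem p 4) (double_pow hp h7 h2)
  have t3 : D p 2 (((15 : ℕ) : ℚ) * (5 * H p 4 - 4 * P p)) := by
    refine (D.smul (c := -16) (by exact (Z p).neg_mem (ofNat_mem p 16)) (t1.sub t2)).congr ?_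
    push_cast
    ring
  have c15 : (15 : ℕ).Coprime p := by
    have h3 : (3 : ℕ).Coprime p := (Nat.coprime_of_lt_prime (by norm_num) (by omega) hp).symm
    have h5 : (5 : ℕ).Coprime p := (Nat.coprime_of_lt_prime (by norm_num) (by omega) hp).symm
    exact Nat.Coprime.mul_left h3 h5
  have t4 := t3.cancel (inv_mem_of_coprime c15 (by norm_num)) (by norm_num)
  exact (t4.add (D.smul (ofNat_mem p 4) (P_eq hp h7))).congr (by ring)

/-- power sums modulo `p` -/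
lemma powsum_zmod (hp : p.Prime) {m : ℕ} (h0 : 0 < m) :
    (∑ j ∈ range p, ((j : ℕ) : ZMod p) ^ m) = if p - 1 ∣ m then -1 else 0 := by
  have : Fact p.Prime := ⟨hp⟩
  have h1 : ∑ x : ZMod p, x ^ m = ∑ j ∈ range p, ((j : ℕ) : ZMod p) ^ m := by
    refine Finset.sum_nbij' (fun x => x.val) (fun j => (j : ZMod p)) ?_ ?_ ?_ ?_ ?_
    · intro x _; simpa using ZMod.val_lt x
    · intro j _; simp
    · intro x _; simp
    · intro j hj; exact ZMod.val_cast_of_lt (by simpa using hj)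
    · intro x _; simp
  have h2 : ∑ u : (ZMod p)ˣ, (u : ZMod p) ^ m = ∑ x ∈ (univ : Finset (ZMod p)).erase 0, x ^ m :=
    Finset.sum_bij (fun u _ => (u : ZMod p)) (by simp) (fun u _ v _ h => Units.ext h)
      (fun x hx => ⟨Units.mk0 x (by simpa using hx), mem_univ _, rfl⟩) (fun _ _ => rfl)
  have h3 := FiniteField.sum_pow_units (ZMod p) m
  rw [ZMod.card] at h3
  rw [← h1, ← Finset.add_sum_erase univ (fun x : ZMod p => x ^ m) (mem_univ 0), ← h2,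
    zero_pow h0.ne', zero_add]
  exact h3

lemma D_of_zmod {m : ℤ} (h : (m : ZMod p) = 0) : D p 1 (m : ℚ) := by
  apply D.of_int_dvd
  rw [pow_one]
  exact (ZMod.intCast_zmod_eq_zero_iff_dvd m p).mp h

lemma powsum_zero (hp : p.Prime) {m : ℕ} (h0 : 0 < m) (hm : ¬ (p - 1) ∣ m) :
    D p 1 (∑ j ∈ range p, (j : ℚ) ^ m) := by
  have h := D_of_zmod (p := p) (m := ∑ j ∈ range p, (j : ℤ) ^ m) (by
    push_cast
    rw [powsum_zmod hp h0, if_neg hm])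
  exact_mod_cast h

lemma powsum_one (hp : p.Prime) : D p 1 (∑ j ∈ range p, (j : ℚ) ^ (p - 1) + 1) := by
  have h := D_of_zmod (p := p) (m := ∑ j ∈ range p, (j : ℤ) ^ (p - 1) + 1) (by
    push_cast
    rw [powsum_zmod hp (by have := hp.two_le; omega), if_pos dvd_rfl]
    ring)
  exact_mod_cast h

/-- the double sum with positive exponents -/
def K' (p : ℕ) : ℚ := ∑ j ∈ range p, (j : ℚ) ^ (p - 4) * ∑ k ∈ range j, (k : ℚ) ^ (p - 3)

lemma K_eq_K' (hp : p.Prime) (h7 : 7 ≤ p) : D p 1 (K' p - K p) := by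
  have e : K' p = ∑ j ∈ Ico 1 p, (j : ℚ) ^ (p - 4) * ∑ k ∈ Ico 1 j, (k : ℚ) ^ (p - 3) := by
    unfold K'
    rw [Finset.range_eq_Ico, Finset.sum_eq_sum_Ico_succ_bot hp.pos]
    have h0 : ((0 : ℕ) : ℚ) ^ (p - 4) = 0 := by
      rw [Nat.cast_zero, zero_pow (by omega)]
    rw [h0, zero_mul, zero_add]
    refine Finset.sum_congr rfl fun j hj => ?_
    rw [Finset.mem_Ico] at hj
    rw [Finset.range_eq_Ico, Finset.sum_eq_sum_Ico_succ_bot (show 0 < j by omega), Nat.cast_zero,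
      zero_pow (by omega), zero_add]
  rw [e]
  unfold K
  rw [← Finset.sum_sub_distrib]
  refine D.sum _ _ fun j hj => ?_
  rw [Finset.mem_Ico] at hj
  have cj : j.Coprime p := (Nat.coprime_of_lt_prime (by omega) hj.2 hp).symm
  have f3 := fermat_inv hp cj (by omega) (k := 3) (by omega)
  have e3 : p - 1 - 3 = p - 4 := by omega
  rw [e3] at f3
  have hS : D p 1 (∑ k ∈ Ico 1 j, ((k : ℚ) ^ (p - 3) - ((k : ℚ)⁻¹) ^ 2)) := by
    refine D.sum _ _ fun k hk => ?_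
    rw [Finset.mem_Ico] at hk
    have ck : k.Coprime p := (Nat.coprime_of_lt_prime (by omega) (by omega) hp).symm
    have f2 := fermat_inv hp ck (by omega) (k := 2) (by omega)
    have e2 : p - 1 - 2 = p - 3 := by omega
    rwa [e2] at f2
  rw [Finset.sum_sub_distrib] at hS
  have hSm : (∑ k ∈ Ico 1 j, ((k : ℚ)⁻¹) ^ 2) ∈ Z p := (Z p).sum_mem fun k hk => by
    rw [Finset.mem_Ico] at hk
    exact (Z p).pow_mem (inv_mem hp (by omega) (by omega)) 2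
  have t1 := D.smul ((Z p).pow_mem (natCast_mem p j) (p - 4)) hS
  have t2 := D.smul hSm f3
  exact (t1.add t2).congr (by ring)

lemma choose_div (hp : p.Prime) (h7 : 7 ≤ p) {s : ℕ} (hs : p = s + 5) :
    D p 1 (((s + 3).choose s : ℚ) * (((s + 3 : ℕ) : ℚ))⁻¹ - 2) := by
  have h1 : (s + 3).choose s = (s + 3).choose 3 := Nat.choose_symm_add
  have h2 : (s + 3) * (s + 2).choose 2 = (s + 3).choose 3 * 3 :=
    Nat.add_one_mul_choose_eq (s + 2) 2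
  have h3 : (s + 2) * (s + 1).choose 1 = (s + 2).choose 2 * 2 :=
    Nat.add_one_mul_choose_eq (s + 1) 1
  rw [Nat.choose_one_right] at h3
  have h4 : (((s + 3).choose s : ℕ) : ℚ) * 6 = ((s + 3 : ℕ) : ℚ) * (((s + 2 : ℕ) : ℚ) *
      ((s + 1 : ℕ) : ℚ)) := by
    rw [h1]
    have : (s + 3).choose 3 * 6 = (s + 3) * ((s + 2) * (s + 1)) := by
      calc (s + 3).choose 3 * 6 = ((s + 3).choose 3 * 3) * 2 := by ring
        _ = ((s + 3) * (s + 2).choose 2) * 2 := by rw [h2]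
        _ = (s + 3) * ((s + 2).choose 2 * 2) := by ring
        _ = _ := by rw [h3]
    exact_mod_cast this
  have h0 : ((s + 3 : ℕ) : ℚ) ≠ 0 := Nat.cast_ne_zero.mpr (by omega)
  have c6 : (6 : ℕ).Coprime p := by
    have a2 : (2 : ℕ).Coprime p := (Nat.coprime_of_lt_prime (by norm_num) (by omega) hp).symm
    have a3 : (3 : ℕ).Coprime p := (Nat.coprime_of_lt_prime (by norm_num) (by omega) hp).symm
    exact Nat.Coprime.mul_left a2 a3
  refine D.cancel (k := 6) (inv_mem_of_coprime c6 (by norm_num)) (by norm_num) ?_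
  have e : ((6 : ℕ) : ℚ) * (((s + 3).choose s : ℚ) * (((s + 3 : ℕ) : ℚ))⁻¹ - 2) =
      (p : ℚ) ^ 1 * ((p : ℚ) - 7) := by
    have h5 : ((6 : ℕ) : ℚ) * (((s + 3).choose s : ℚ) * (((s + 3 : ℕ) : ℚ))⁻¹ - 2) =
        ((((s + 3).choose s : ℕ) : ℚ) * 6) * (((s + 3 : ℕ) : ℚ))⁻¹ - 12 := by
      push_cast
      ring
    rw [h5, h4, hs]
    push_cast
    push_cast at h0
    field_simp
    ring
  rw [e]
  exact D.of_mem ((Z p).sub_mem (natCast_mem p p) (ofNat_mem p 7))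

lemma K'_eq (hp : p.Prime) (h7 : 7 ≤ p) : D p 1 (K' p + 2 * bernoulli (p - 5)) := by
  obtain ⟨s, hs⟩ : ∃ s, p = s + 5 := ⟨p - 5, by omega⟩
  have h4 : p - 4 = s + 1 := by omega
  have h3 : p - 3 = s + 2 := by omega
  have h5 : p - 5 = s := by omega
  have hinv : (((s + 3 : ℕ) : ℚ))⁻¹ ∈ Z p := inv_mem hp (by omega) (by omega)
  have e : K' p = ∑ i ∈ range (s + 3), bernoulli i * ((s + 3).choose i : ℚ) *
      (((s + 3 : ℕ) : ℚ))⁻¹ * ∑ j ∈ range p, (j : ℚ) ^ ((s + 1) + (s + 3 - i)) := by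
    unfold K'
    rw [h4, h3]
    have e1 : ∀ j : ℕ, (j : ℚ) ^ (s + 1) * ∑ k ∈ range j, (k : ℚ) ^ (s + 2) =
        ∑ i ∈ range (s + 3), bernoulli i * ((s + 3).choose i : ℚ) * (((s + 3 : ℕ) : ℚ))⁻¹ *
          (j : ℚ) ^ ((s + 1) + (s + 3 - i)) := by
      intro j
      rw [sum_range_pow, Finset.mul_sum]
      refine Finset.sum_congr rfl fun i _ => ?_
      rw [pow_add, div_eq_mul_inv]
      push_cast
      have : (s : ℚ) + 2 + 1 = (s : ℚ) + 3 := by ring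
      rw [this]
      ring
    rw [Finset.sum_congr rfl fun j _ => e1 j, Finset.sum_comm]
    exact Finset.sum_congr rfl fun i _ => by rw [Finset.mul_sum]
  have hmem : s ∈ range (s + 3) := Finset.mem_range.mpr (by omega)
  rw [e, ← Finset.add_sum_erase _ _ hmem, h5]
  have t1 : D p 1 (∑ i ∈ (range (s + 3)).erase s, bernoulli i * ((s + 3).choose i : ℚ) *
      (((s + 3 : ℕ) : ℚ))⁻¹ * ∑ j ∈ range p, (j : ℚ) ^ ((s + 1) + (s + 3 - i))) := by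
    refine D.sum _ _ fun i hi => ?_
    rw [Finset.mem_erase, Finset.mem_range] at hi
    refine D.smul ((Z p).mul_mem ((Z p).mul_mem (bernoulli_mem hp i (by omega))
      (natCast_mem p _)) hinv) (powsum_zero hp (by omega) ?_)
    rintro ⟨c, hc⟩
    have hp1 : p - 1 = s + 4 := by omega
    rw [hp1] at hc
    rcases Nat.lt_or_ge c 1 with h | h
    · interval_cases c
      omega
    · rcases Nat.lt_or_ge c 2 with h' | h'
      · interval_cases c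
        omega
      · have : (s + 4) * 2 ≤ (s + 4) * c := Nat.mul_le_mul_left _ h'
        omega
  have hexp : s + 1 + (s + 3 - s) = p - 1 := by omega
  have hb : bernoulli s ∈ Z p := bernoulli_mem hp s (by omega)
  have t2 := D.smul ((Z p).mul_mem ((Z p).mul_mem hb (natCast_mem p ((s + 3).choose s))) hinv)
    (powsum_one hp)
  have t3 := D.smul hb (choose_div hp h7 hs)
  rw [hexp]
  exact ((t2.add t1).sub t3).congr (by ring)

/-- The congruence modulo `p^6`. -/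
lemma main (hp : p.Prime) (h5 : 5 ≤ p) :
    D p 6 ((aSum p : ℚ) - 1 + 2 * (p : ℚ) ^ 5 * bernoulli (p - 5)) := by
  rcases h5.eq_or_lt with rfl | h5'
  · have e : aSum 5 = 87501 := by decide
    rw [e]
    refine ⟨6, ofNat_mem 5 6, ?_⟩
    norm_num [bernoulli_zero]
  · have h7 : 7 ≤ p := by
      have : p ≠ 6 := by rintro rfl; revert hp; decide
      omega
    have hb : bernoulli (p - 5) ∈ Z p := bernoulli_mem hp _ (by omega)
    have t1 := H34 hp h5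
    have t2 := D.pmul 1 (H4_eq hp h7)
    have t3 := D.pmul 2 ((K'_eq hp h7).sub (K_eq_K' hp h7))
    have t4 : D p 3 (((2 : ℕ) : ℚ) * (((p : ℚ) * H p 4 - H p 3 + 2 * (p : ℚ) ^ 2 * K p) +
        2 * (p : ℚ) ^ 2 * bernoulli (p - 5))) := by
      refine ((t2.add (D.smul (ofNat_mem p 4) t3)).sub t1).congr ?_
      push_cast
      ring
    have t5 := t4.cancel (inv_mem hp (by norm_num) (by omega)) (by norm_num)
    exact ((a_eq hp).add (D.pmul 3 t5)).congr (by ring)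

end Pool.Agent.Lib.MP_558e64_nt.Sharp
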